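import Pool.Agent.Run7.h985.TC.Stm
import Pool.Agent.Run7.h822.MT.Bound

/-!
# Piece NIL (project TC of helper985): the class of an extension of the unit is nilpotent
-/

set_option autoImplicit false
set_option linter.unusedSectionVars false
set_option linter.unusedSimpArgs false
set_option backward.isDefEq.respectTransparency false
set_option backward.defeqAttrib.useBackward true

open CategoryTheory Limits MonoidalCategory Pretriangulated Triangulated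

namespace Run7.h192.TC

open Pool.Agent.Y116.MT Pool.Agent.V1178.MT Run7.h822.MT Run7.h985.TC

universe v u w

section

variable {C : Type u} [Category.{v} C] [Preadditive C] [HasZeroObject C] [HasShift C ℤ]
  [∀ n : ℤ, (shiftFunctor C n).Additive] [Pretriangulated C] [MonoidalCategory C]
  [SymmetricCategory C] [TensorTriangulated C] [MonoidalPreadditive C]

/-- Multiples of the identity of the unit by nonzero integers are invertible. -/
lemma isIso_zsmul_unit {E : Type w} [Field E] [CharZero E] {R : Realisation C E} (hF : Fth R)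
    (k : ℤ) (hk : k ≠ 0) : IsIso (k • 𝟙 (𝟙_ C)) := by
  obtain ⟨Z, g, h, hT⟩ := distinguished_cocone_triangle (k • 𝟙 (𝟙_ C))
  have h0 : ∀ M : ModuleCat.{w} E, IsIso (k • 𝟙 M) := by
    intro M
    have hk' : (k : E) ≠ 0 := by exact_mod_cast hk
    have h1 : ∀ x : M, (k • 𝟙 M).hom x = (k : E) • x := by
      intro x
      rw [ModuleCat.hom_zsmul, LinearMap.smul_apply]
      exact (Int.cast_smul_eq_zsmul E k x).symm
    rw [ConcreteCategory.isIso_iff_bijective]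
    constructor
    · intro x y hxy
      have h2 : (k : E) • x = (k : E) • y := by
        rw [← h1, ← h1]
        exact hxy
      exact smul_right_injective M hk' h2
    · intro y
      refine ⟨(k : E)⁻¹ • y, ?_⟩
      have h2 := h1 ((k : E)⁻¹ • y)
      rw [smul_smul, mul_inv_cancel₀ hk', one_smul] at h2
      exact h2
  have h1 : ∀ i : ℤ, IsIso (R.H.map ((k • 𝟙 (𝟙_ C))⟦i⟧')) := by
    intro i
    rw [Functor.map_zsmul, Functor.map_zsmul, CategoryTheory.Functor.map_id,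
      CategoryTheory.Functor.map_id]
    exact h0 _
  have h2 := isZero_cone R hT h1
  have h3 : R.Deg Z 0 := fun i _ => h2 i
  have h4 : IsZero (R.H.obj Z) := (h2 0).of_iso (R.H.mapIso ((shiftFunctorZero C ℤ).app Z).symm)
  have h5 := hF.zero h3 h3 (𝟙 Z) (h4.eq_of_src _ _)
  exact isIso1_of_isZero3 hT ((IsZero.iff_id_eq_zero Z).2 h5)

/-- The sign of `𝟙⟦-1⟧`. -/
lemma sign_neg_shift :
    (β_ ((𝟙_ C)⟦(-1 : ℤ)⟧) ((𝟙_ C)⟦(-1 : ℤ)⟧)).hom = (-1 : ℤ) • 𝟙 _ := by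
  set A : C := (𝟙_ C)⟦(1 : ℤ)⟧ with hA
  set B : C := (𝟙_ C)⟦(-1 : ℤ)⟧ with hB
  have e : 𝟙_ C ≅ A ⊗ B := (λ_ (𝟙_ C)).symm ≪≫ (shiftTensorIso (𝟙_ C) (𝟙_ C) 1).symm
  have h1 := sign_iso e (sign_unit (C := C))
  have h2 := SymmetricCategory.tensorμ_braid_swap A B
  have hβA : (β_ A A).hom = -𝟙 _ := TensorTriangulated.sign
  rw [h1, one_zsmul, Category.comp_id, hβA] at h2
  have h3 : (-𝟙 (A ⊗ A)) ⊗ₘ (β_ B B).hom = 𝟙 _ := by
    rw [← cancel_mono (tensorμ A A B B), ← h2, Category.id_comp]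
  have h4 : (A ⊗ A) ◁ ((β_ B B).hom + 𝟙 _) = 0 := by
    rw [MonoidalCategory.tensorHom_def, wr_neg, id_whiskerRight, Preadditive.neg_comp,
      Category.id_comp] at h3
    rw [MonoidalPreadditive.whiskerLeft_add, MonoidalCategory.whiskerLeft_id, ← h3]
    abel
  have h5 : ((β_ B B).hom + 𝟙 _) ▷ (A ⊗ A) = 0 := by
    rw [← cancel_mono (β_ (B ⊗ B) (A ⊗ A)).hom, BraidedCategory.braiding_naturality_left, h4,
      comp_zero, zero_comp]
  have h6 := whisker_shift_zero (whisker_shift_zero (whisker_tensor_zero h5))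
  rw [neg_one_zsmul]
  exact eq_neg_of_add_eq_zero_left h6

lemma kap_iso' {E : Type w} [Field E] {R : Realisation C E} {X Z : C}
    (h : ∀ n, R.Deg (pw X Z n) 0) (n : ℕ) : IsIso (kap R.H X Z n) := by
  induction n with
  | zero => simp only [kap]; infer_instance
  | succ n ih =>
    have h1 := (h n).isIso_mu Z
    simp only [kap]
    infer_instance

/-- The antisymmetrizer of an object in degree zero. -/
lemma asym_deg_zero {E : Type w} [Field E] {R : Realisation C E} (hF : Fth R) {X Z : C}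
    (hX : R.Deg X 0) (hZ : R.Deg Z 0) (n : ℕ) (hn : Module.finrank E (R.H.obj Z) < n) :
    asym (-1) X Z n = 0 := by
  rw [asym_neg_one]
  have h0 : ∀ n, R.Deg (pw X Z n) 0 := by
    intro n
    induction n with
    | zero => exact hX
    | succ n ih => exact ih.tensor hZ
  apply hF.zero (h0 _) (h0 _)
  have h1 := kap_iso' h0 n
  rw [← cancel_epi (kap R.H X Z n), ← alt_lax, alt_vec_zero _ _ _ hn, zero_comp, comp_zero]

end

section

variable {C : Type u} [Category.{v} C] [MonoidalCategory C]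
  [SymmetricCategory C] {P : C} (q : 𝟙_ C ⟶ P)

lemma qp_succ_whisker (n : ℕ) (a : pw (𝟙_ C) P n ⟶ pw (𝟙_ C) P n) :
    qp q (n + 1) ≫ (a ▷ P) = (qp q n ≫ a) ≫ (ρ_ (pw (𝟙_ C) P n)).inv ≫
      (pw (𝟙_ C) P n ◁ q) := by
  simp only [qp, Category.assoc]
  rw [whisker_exchange, ← rightUnitor_inv_naturality_assoc]

lemma qp_exch (n : ℕ) :
    qp q (n + 2) ≫ (exch (pw (𝟙_ C) P n) P P).hom = qp q (n + 2) := by
  have h1 : qp q (n + 2) = qp q n ≫ (ρ_ (pw (𝟙_ C) P n)).inv ≫ (pw (𝟙_ C) P n ◁ q) ≫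
      (ρ_ (pw (𝟙_ C) P n ⊗ P)).inv ≫ ((pw (𝟙_ C) P n ⊗ P) ◁ q) := by
    simp only [qp, Category.assoc]
  have h2 : (ρ_ (pw (𝟙_ C) P n ⊗ P)).inv ≫ ((pw (𝟙_ C) P n ⊗ P) ◁ q) ≫
      (exch (pw (𝟙_ C) P n) P P).hom = ((ρ_ (pw (𝟙_ C) P n)).inv ≫ (pw (𝟙_ C) P n ◁ q)) ▷ P := by
    rw [exch_natural, ← Category.assoc, exch_unit, comp_whiskerRight]
  have h3 : (pw (𝟙_ C) P n ◁ q) ≫ ((ρ_ (pw (𝟙_ C) P n)).inv ≫ (pw (𝟙_ C) P n ◁ q)) ▷ P =
      ((ρ_ (pw (𝟙_ C) P n)).inv ≫ (pw (𝟙_ C) P n ◁ q)) ▷ (𝟙_ C) ≫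
        ((pw (𝟙_ C) P n ⊗ P) ◁ q) := whisker_exchange _ _
  have h4 : (ρ_ (pw (𝟙_ C) P n)).inv ≫
      ((ρ_ (pw (𝟙_ C) P n)).inv ≫ (pw (𝟙_ C) P n ◁ q)) ▷ (𝟙_ C) =
      ((ρ_ (pw (𝟙_ C) P n)).inv ≫ (pw (𝟙_ C) P n ◁ q)) ≫ (ρ_ (pw (𝟙_ C) P n ⊗ P)).inv :=
    (rightUnitor_inv_naturality _).symm
  rw [h1]
  simp only [Category.assoc]
  rw [h2, h3, ← Category.assoc (ρ_ (pw (𝟙_ C) P n)).inv, h4]
  simp only [Category.assoc]

lemma qp_mv (n : ℕ) : ∀ i : Fin (n + 1), qp q (n + 1) ≫ mv (𝟙_ C) P n i = qp q (n + 1) := by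
  induction n with
  | zero =>
    intro i
    obtain rfl : i = 0 := Subsingleton.elim (α := Fin 1) _ _
    simp [mv]
  | succ n ih =>
    intro i
    refine Fin.lastCases ?_ (fun j => ?_) i
    · rw [mv_last, Category.comp_id]
    · rw [mv_castSucc, ← Category.assoc, qp_succ_whisker, ih j]
      exact qp_exch q n

variable [Preadditive C] [MonoidalPreadditive C]

lemma qp_asym (n : ℕ) : qp q n ≫ asym 1 (𝟙_ C) P n = (n.factorial : ℤ) • qp q n := by
  induction n with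
  | zero => simp [asym]
  | succ n ih =>
    have h1 : qp q (n + 1) ≫ (asym 1 (𝟙_ C) P n ▷ P) = (n.factorial : ℤ) • qp q (n + 1) := by
      rw [qp_succ_whisker, ih, Preadditive.zsmul_comp]
      rfl
    have h2 : ∀ i : Fin (n + 1), qp q (n + 1) ≫ (((1 : ℤ) ^ (n + i.val)) •
        (mv (𝟙_ C) P n i ≫ (asym 1 (𝟙_ C) P n ▷ P))) = (n.factorial : ℤ) • qp q (n + 1) := by
      intro i
      rw [one_pow, one_zsmul, ← Category.assoc, qp_mv, h1]
    simp only [asym, Preadditive.comp_sum]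
    rw [Finset.sum_congr rfl (fun i _ => h2 i), Finset.sum_const, Finset.card_univ,
      Fintype.card_fin, ← natCast_zsmul, smul_smul, Nat.factorial_succ]
    push_cast
    rfl

end

/-- Piece NIL. -/
theorem t_NIL : S_NIL.{v, u, w} := by
  intro C _ _ _ _ _ _ _ _ _ _ _ E _ _ R hF P q hP
  have hL : R.Deg (P ⊗ (𝟙_ C)⟦(-1 : ℤ)⟧) 0 := by
    have h1 : R.Deg ((𝟙_ C)⟦(-1 : ℤ)⟧) 1 := (deg_unit (R := R)).shift (-1) 1 (by norm_num)
    have h2 := hP.tensor h1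
    simpa using h2
  have hU : R.Deg (𝟙_ C ⊗ 𝟙_ C) 0 := by
    have h2 := (deg_unit (R := R)).tensor (deg_unit (R := R))
    simpa using h2
  obtain ⟨n, hn⟩ : ∃ n : ℕ, Module.finrank E (R.H.obj (P ⊗ (𝟙_ C)⟦(-1 : ℤ)⟧)) < n :=
    ⟨_, Nat.lt_succ_self _⟩
  have h0 := asym_deg_zero hF hU hL n hn
  have h1 := asym_mrg (sign_neg_shift (C := C)) (by norm_num) (-1) (𝟙_ C) P (𝟙_ C) n
  rw [h0, comp_zero] at h1
  have h2 : asym ((-1) * (-1)) (𝟙_ C) P n ▷ pw (𝟙_ C) ((𝟙_ C)⟦(-1 : ℤ)⟧) n = 0 := by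
    rw [← cancel_mono (mrg (𝟙_ C) P (𝟙_ C) ((𝟙_ C)⟦(-1 : ℤ)⟧) n), h1, zero_comp]
  have h3 : asym 1 (𝟙_ C) P n = 0 := by
    have h4 := whisker_pw_zero n h2
    simpa using h4
  refine ⟨n, ?_⟩
  have h5 := qp_asym q n
  rw [h3, comp_zero] at h5
  have h6 := isIso_zsmul_unit hF (n.factorial : ℤ) (by exact_mod_cast n.factorial_ne_zero)
  rw [← cancel_epi ((n.factorial : ℤ) • 𝟙 (𝟙_ C)), Preadditive.zsmul_comp, Category.id_comp,
    ← h5, comp_zero]

end Run7.h192.TC
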